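import Pool.Agent.H28.EN.Targets2
import Pool.Agent.H28.EN.CLA

/-!
# ON2: the main inequality for one window and one prime number, with given frequencies
-/

set_option autoImplicit false

open Finset Pool.Agent.H6.N4D Pool.Agent.H93.EB

namespace Pool.Agent.H51.EN1

open Pool.Agent.H28.EN

theorem phase (z : ℂ) : ∃ φ : ℝ, (ee (-φ) * z).re = ‖z‖ := by
  refine ⟨z.arg / (2 * Real.pi), ?_⟩
  have h2 : ee (-(z.arg / (2 * Real.pi))) = Complex.exp (-(z.arg * Complex.I)) := by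
    unfold ee
    congr 1
    have h3 : 2 * Real.pi * -(z.arg / (2 * Real.pi)) = -z.arg := by
      have := Real.pi_pos
      field_simp
    rw [h3]
    push_cast
    ring
  rw [h2]
  have h4 : Complex.exp (-(z.arg * Complex.I)) * z = ‖z‖ := by
    have h5 := Complex.norm_mul_exp_arg_mul_I z
    calc Complex.exp (-(z.arg * Complex.I)) * z
        = Complex.exp (-(z.arg * Complex.I)) * (‖z‖ * Complex.exp (z.arg * Complex.I)) := by
          rw [h5]
      _ = ‖z‖ * Complex.exp (z.arg * Complex.I + -(z.arg * Complex.I)) := by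
          rw [Complex.exp_add]
          ring
      _ = ‖z‖ := by rw [add_neg_cancel, Complex.exp_zero, mul_one]
  rw [h4, Complex.ofReal_re]

theorem bv_one (N n : ℕ) : BV N n (fun _ => 1) := by
  refine ⟨fun m _ => by simp, ?_⟩
  simp

theorem top (h1 : T_GRE) (h2 : T_TOP) (f : ℕ → ℝ) (N n : ℕ) (θ : ℝ)
    (h : ‖cr f N n θ‖ = M f N n) : ∃ φ : ℝ, Top f N n θ φ ∧ G f N n θ φ = M f N n := by
  obtain ⟨φ, hφ⟩ := phase (cr f N n θ)
  have hG : G f N n θ φ = M f N n := by rw [h1, hφ, h]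
  refine ⟨φ, fun θ' φ' => ?_, hG⟩
  rw [hG, h1]
  refine (Complex.re_le_norm _).trans ?_
  rw [norm_mul, norm_ee, one_mul]
  exact (h2 f N n).1 θ'

theorem ind_nonneg (p : Prop) : 0 ≤ ind p := by
  unfold ind
  split_ifs <;> norm_num

theorem pf_ON2 (h1 : T_GRE) (h2 : T_TOP) (h3 : T_SPL) (ha : T_CL2) (hb : T_CLB) (hc : T_BRK) :
    T_ON2 := by
  refine ⟨2 * 10 ^ 10, by norm_num, ?_⟩
  intro lam q L J n η tV tW be al hl hη hη1 hq hL hJ hqL hV hW hbe hal
  obtain ⟨N, hN⟩ : ∃ N : ℕ, N = 2 ^ 15 * L := ⟨_, rfl⟩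
  have hN1 : 1 ≤ N := by omega
  have hJN : 1 ≤ J * N := Nat.mul_pos hJ hN1
  have hJr : (0 : ℝ) < J := by exact_mod_cast hJ
  obtain ⟨φW, hTW, hGW⟩ := top h1 h2 lam (J * N) n tW (by rw [hN]; exact hW)
  obtain ⟨b, hbd⟩ : ∃ b : ℝ, b = M lam (J * N) n := ⟨_, rfl⟩
  have hb1 : b ≤ 1 := by rw [hbd]; exact M_le_one h2 hl hJN
  -- one part
  have hpart : ∀ j : ℕ, ∃ g0 g1 : ℕ → ℂ, BV N (n + j * N) g0 ∧ BV N (n + j * N) g1 ∧ (j < J →
      phi (Mq lam q N (n + j * N)) ≤ dph b * G (dq lam q) N (n + j * N) tW φW +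
        phi (M lam N (n + j * N)) +
        η * (phi (M lam N (n + j * N)) - phi b + dph b * (b - G lam N (n + j * N) tW φW)) +
        2 * 10 ^ 10 / η * (zz lam q N (n + j * N) (tV j) (fun _ => 1) ^ 2 +
          zz lam q N (n + j * N) (tV j) g0 ^ 2 +
          zz lam q N (n + j * N) (tV j) g1 ^ 2 +
          zz lam q N (n + j * N) tW (fun _ => 1) ^ 2 +
          zz lam q N (n + j * N) (al j) (fun _ => 1) ^ 2 +
          ind (¬ Reg lam L (n + j * N)))) := by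
    intro j
    by_cases hj : j < J
    · have hVj := hV j hj
      have hbej := hbe j hj
      have halj := hal j hj
      rw [← hN] at hVj hbej halj
      obtain ⟨φ, hT, hG⟩ := top h1 h2 lam N (n + j * N) (tV j) hVj
      obtain ⟨g0, hg0, e0⟩ := ha lam q L (n + j * N) (tV j) φ (be j) (al j) hl hq hL hqL
        (by rw [← hN]; exact hT) (by rw [← hN]; exact hG) (by rw [← hN]; exact hbej)
        (by rw [← hN]; exact halj)
      obtain ⟨g1, hg1, e1⟩ := hc lam q L (n + j * N) (tV j) φ tW φW b (η / 2) hl hq hL hqL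
        (by linarith) (by linarith) hb1 (by rw [← hN]; exact hT) (by rw [← hN]; exact hG)
      rw [← hN] at hg0 e0 hg1 e1
      refine ⟨g0, g1, hg0, hg1, fun _ => ?_⟩
      obtain ⟨a, had⟩ : ∃ a : ℝ, a = M lam N (n + j * N) := ⟨_, rfl⟩
      obtain ⟨x1, hx1⟩ : ∃ x : ℝ, x = zz lam q N (n + j * N) (tV j) (fun _ => 1) ^ 2 := ⟨_, rfl⟩
      obtain ⟨x2, hx2⟩ : ∃ x : ℝ, x = zz lam q N (n + j * N) (tV j) g0 ^ 2 := ⟨_, rfl⟩
      obtain ⟨x3, hx3⟩ : ∃ x : ℝ, x = zz lam q N (n + j * N) (tV j) g1 ^ 2 := ⟨_, rfl⟩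
      obtain ⟨x4, hx4⟩ : ∃ x : ℝ, x = zz lam q N (n + j * N) tW (fun _ => 1) ^ 2 := ⟨_, rfl⟩
      obtain ⟨x5, hx5⟩ : ∃ x : ℝ, x = zz lam q N (n + j * N) (al j) (fun _ => 1) ^ 2 := ⟨_, rfl⟩
      obtain ⟨x6, hx6⟩ : ∃ x : ℝ, x = ind (¬ Reg lam L (n + j * N)) := ⟨_, rfl⟩
      have p1 : 0 ≤ x1 := by rw [hx1]; positivity
      have p2 : 0 ≤ x2 := by rw [hx2]; positivity
      have p3 : 0 ≤ x3 := by rw [hx3]; positivity
      have p4 : 0 ≤ x4 := by rw [hx4]; positivity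
      have p5 : 0 ≤ x5 := by rw [hx5]; positivity
      have p6 : 0 ≤ x6 := by rw [hx6]; exact ind_nonneg _
      rw [← had, ← hx1, ← hx5, ← hx2, ← hx6] at e0
      rw [← had, ← hx1, ← hx4, ← hx3, ← hx6] at e1
      rw [← had, ← hx1, ← hx2, ← hx3, ← hx4, ← hx5, ← hx6]
      unfold brg at e1
      obtain ⟨gV, hgV⟩ : ∃ x : ℝ, x = G (dq lam q) N (n + j * N) (tV j) φ := ⟨_, rfl⟩
      obtain ⟨gW, hgW⟩ : ∃ x : ℝ, x = G (dq lam q) N (n + j * N) tW φW := ⟨_, rfl⟩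
      obtain ⟨lW, hlW⟩ : ∃ x : ℝ, x = G lam N (n + j * N) tW φW := ⟨_, rfl⟩
      rw [← hgV] at e0
      rw [← hgV, ← hgW, ← hlW] at e1
      rw [← hgW, ← hlW]
      have q1 : (1 : ℝ) ≤ 1 / η := by rw [le_div_iff₀ hη]; linarith
      have q2 : (10 : ℝ) ^ 10 * (x1 + x5 + x2 + x6) ≤
          10 ^ 10 * (1 / η) * (x1 + x5 + x2 + x6) := by
        have h0 : 0 ≤ (10 : ℝ) ^ 10 * (x1 + x5 + x2 + x6) := by positivity
        have h5 := mul_le_mul_of_nonneg_left q1 h0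
        linarith
      have q3 : (10 : ℝ) ^ 5 / (η / 2) * (x1 + x4 + x3 + x6) ≤
          10 ^ 10 * (1 / η) * (x1 + x4 + x3 + x6) := by
        apply mul_le_mul_of_nonneg_right _ (by positivity)
        have h5 : (10 : ℝ) ^ 5 / (η / 2) = 2 * 10 ^ 5 * (1 / η) := by
          field_simp
        rw [h5]
        apply mul_le_mul_of_nonneg_right (by norm_num) (by positivity)
      have q4 : 2 * 10 ^ 10 / η * (x1 + x2 + x3 + x4 + x5 + x6) =
          10 ^ 10 * (1 / η) * (x1 + x5 + x2 + x6) + 10 ^ 10 * (1 / η) * (x1 + x4 + x3 + x6) +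
          10 ^ 10 * (1 / η) * (x2 + x3 + x4 + x5) := by ring
      have q5 : 0 ≤ 10 ^ 10 * (1 / η) * (x2 + x3 + x4 + x5) := by positivity
      have q6 : 2 * (η / 2) * (phi a - phi b - dph b * (a - b) + dph b * (a - lW)) =
          η * (phi a - phi b + dph b * (b - lW)) := by ring
      rw [q6] at e1
      rw [q4]
      linarith
    · exact ⟨fun _ => 1, fun _ => 1, bv_one _ _, bv_one _ _, fun h => absurd h hj⟩
  choose g0 g1 hg0 hg1 hin using hpart
  refine ⟨fun j i => if i = 0 then g0 j else g1 j, ?_, ?_⟩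
  · intro j i
    rw [← hN]
    by_cases hi : i = 0
    · simp only [hi, if_true]
      exact hg0 j
    · simp only [hi, if_false]
      exact hg1 j
  · simp only [if_true, one_ne_zero, if_false]
    rw [← hN]
    have hB := hb lam q (J * N) n tW φW hJN hGW
    rw [← hbd] at hB ⊢
    have s1 := (h3 (dq lam q) N J n hN1 hJ).2 tW φW
    have s2 := (h3 lam N J n hN1 hJ).2 tW φW
    rw [hGW, ← hbd] at s2
    rw [s1] at hB
    have hS := Finset.sum_le_sum fun (j : ℕ) (hj : j ∈ range J) => hin j (Finset.mem_range.1 hj)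
    simp only [Finset.sum_add_distrib, ← Finset.mul_sum, Finset.sum_sub_distrib,
      Finset.sum_const, Finset.card_range, nsmul_eq_mul] at hS ⊢
    obtain ⟨S1, hS1⟩ : ∃ x : ℝ, x = ∑ j ∈ range J, phi (Mq lam q N (n + j * N)) := ⟨_, rfl⟩
    obtain ⟨S2, hS2⟩ : ∃ x : ℝ, x = ∑ j ∈ range J, phi (M lam N (n + j * N)) := ⟨_, rfl⟩
    obtain ⟨S3, hS3⟩ : ∃ x : ℝ, x = ∑ j ∈ range J, G (dq lam q) N (n + j * N) tW φW := ⟨_, rfl⟩
    obtain ⟨S4, hS4⟩ : ∃ x : ℝ, x = ∑ j ∈ range J, G lam N (n + j * N) tW φW := ⟨_, rfl⟩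
    rw [← hS1, ← hS2, ← hS3, ← hS4] at hS
    rw [← hS1, ← hS2]
    rw [← hS3] at hB
    rw [← hS4] at s2
    have s3 : (J : ℝ) * b = S4 := by
      rw [s2]
      field_simp
    rw [s3, sub_self, mul_zero, add_zero] at hS
    have hS' := (div_le_div_iff_of_pos_right hJr).2 hS
    have e : ∀ X : ℝ, (dph b * S3 + S2 + η * (S2 - (J : ℝ) * phi b) + 2 * 10 ^ 10 / η * X) / J =
        dph b * (S3 / J) + S2 / J + η * (S2 / J - phi b) + 2 * 10 ^ 10 / η * (X / J) := by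
      intro X
      field_simp
    rw [e] at hS'
    linarith

end Pool.Agent.H51.EN1
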