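import Pool.Agent.H1.ENW.GRE
import Pool.Agent.H23.EN.TOP
import Pool.Agent.H46.EN.SPL
import Pool.Agent.H41.EN.MQF
import Pool.Agent.H60.EN1.GEO
import Pool.Agent.H88.EN.FAR
import Pool.Agent.H5.EN.SLO
import Pool.Agent.H69.EN.MID
import Pool.Agent.H60.EN1.UNF
import Pool.Agent.H73.EN.NDS
import Pool.Agent.H90.EN.PK1
import Pool.Agent.H60.EN1.PK2
import Pool.Agent.H23.EN.DIF
import Pool.Agent.H38.EN.TST
import Pool.Agent.H90.EN.PHI
import Pool.Agent.H28.EN.CL2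
import Pool.Agent.H40.EN.CLB
import Pool.Agent.H28.EN.BRK
import Pool.Agent.H51.EN1.ON2

/-!
# The inequality ON2 without hypotheses
-/

set_option autoImplicit false

namespace Pool.Agent.H51.EN1

open Pool.Agent.H28.EN

theorem aGRE : T_GRE := Pool.Agent.H1.ENW.pf_GRE
theorem aTOP : T_TOP := Pool.Agent.H23.EN.pf_TOP aGRE
theorem aSPL : T_SPL := Pool.Agent.H46.EN.pf_SPL
theorem aMQF : T_MQF := Pool.Agent.H41.EN.pf_MQF
theorem aGEO : T_GEO := Pool.Agent.H60.EN1.pf_GEO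
theorem aFAR : T_FAR := Pool.Agent.H88.EN.pf_FAR aGEO
theorem aSLO : T_SLO := Pool.Agent.H5.EN.pf_SLO
theorem aMID : T_MID := Pool.Agent.H69.EN.pf_MID
theorem aUNF : T_UNF := Pool.Agent.H60.EN1.pf_UNF aGRE aTOP aSPL
theorem aNDS : T_NDS := Pool.Agent.H73.EN.pf_NDS
theorem aPK1 : T_PK1 := Pool.Agent.H90.EN.pf_PK1 aMID aUNF aNDS
theorem aPK2 : T_PK2 := Pool.Agent.H60.EN1.pf_PK2 aUNF aNDS aGEO
theorem aDIF : T_DIF := Pool.Agent.H23.EN.pf_DIF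
theorem aTST : T_TST := Pool.Agent.H38.EN.pf_TST
theorem aPHI : T_PHI := Pool.Agent.H90.EN.pf_PHI
theorem aCL2 : T_CL2 := pf_CL2 aTOP aMQF aFAR aSLO aPK1 aPK2 aDIF aTST aPHI
theorem aCLB : T_CLB := Pool.Agent.H40.EN.pf_CLB aGRE aTOP aMQF aPHI
theorem aBRK : T_BRK := pf_BRK aTOP aFAR aSLO aPK1 aPK2 aDIF aTST aPHI

/-- The main inequality for one window and one prime number. -/
theorem pf_ONE2 : T_ON2 := pf_ON2 aGRE aTOP aSPL aCL2 aCLB aBRK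

end Pool.Agent.H51.EN1
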